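import Pool.Agent.U485.SM.All

/-!
# Triples and quadruples in all short windows, in sieved random models of the primes

`T` is nondecreasing, tends to infinity, `T(n) = n^{o(1)}`; every `n` without prime factors `≤ T(n)` is chosen
independently with probability `min(1, ∏_{p ≤ T(n)} (1 - 1/p)⁻¹ / log n)`. Almost surely, in all windows `(x, x + h]`,
`x^η ≤ h ≤ x`, the number of the `n` with `n, n + 2, n + 6` chosen is asymptotic to `9/2 D₃ h/(log x)³`, the number of the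
`n` with `n, n + 2, n + 6, n + 8` chosen to `27/2 D₄ h/(log x)⁴`; and for almost all triples the number `n + 8` is not
chosen: the exact pattern has the same asymptotics.

Project HT: packages of helper891, helper660, helper139, helper803, helper445, helper373, helper741, helper668,
helper333, helper200, helper165, helper690, helper934.
-/

set_option autoImplicit false

namespace Pool.Agent.Results.MP_3efbeb_nt.AllWindowsInRandomModels

open MeasureTheory Filter Topology Pool.Agent.U485.SM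

/-- the number of the `n` in `(x, x + h]` with `n, n + 2, n + 6` in `Q` -/
noncomputable def triples (Q : Set ℕ) (x h : ℕ) : ℕ :=
  {n : ℕ | x < n ∧ n ≤ x + h ∧ n ∈ Q ∧ n + 2 ∈ Q ∧ n + 6 ∈ Q}.ncard

/-- the number of the `n` in `(x, x + h]` with `n, n + 2, n + 6, n + 8` in `Q` -/
noncomputable def quadruples (Q : Set ℕ) (x h : ℕ) : ℕ :=
  {n : ℕ | x < n ∧ n ≤ x + h ∧ n ∈ Q ∧ n + 2 ∈ Q ∧ n + 6 ∈ Q ∧ n + 8 ∈ Q}.ncard

/-- **Triples and quadruples in all short windows, in sieved random models.** -/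
theorem result : ∃ D₃ D₄ : ℝ, 0 < D₃ ∧ 0 < D₄ ∧
    Tendsto (fun y : ℕ => ∏ p ∈ (Finset.Icc 5 y).filter Nat.Prime, ((p : ℝ) ^ 2 * (p - 3) / (p - 1) ^ 3)) atTop
      (𝓝 D₃) ∧
    Tendsto (fun y : ℕ => ∏ p ∈ (Finset.Icc 5 y).filter Nat.Prime, ((p : ℝ) ^ 3 * (p - 4) / (p - 1) ^ 4)) atTop
      (𝓝 D₄) ∧
    ∀ (Ω : Type) [MeasurableSpace Ω] (μ : Measure Ω) [IsProbabilityMeasure μ] (T : ℕ → ℕ) (E : ℕ → Set Ω),
      Monotone T → Tendsto T atTop atTop → (∀ ε : ℝ, 0 < ε → ∀ᶠ n : ℕ in atTop, (T n : ℝ) ≤ (n : ℝ) ^ ε) →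
      Model μ T E → ∀ᵐ ω ∂μ, ∀ δ η : ℝ, 0 < δ → 0 < η → ∀ᶠ x : ℕ in atTop, ∀ h : ℕ, (x : ℝ) ^ η ≤ h → h ≤ x →
        |(triples {m | ω ∈ E m} x h : ℝ) * (Real.log x) ^ 3 / h - 9 / 2 * D₃| ≤ δ ∧
        |(quadruples {m | ω ∈ E m} x h : ℝ) * (Real.log x) ^ 4 / h - 27 / 2 * D₄| ≤ δ := by
  obtain ⟨D₃, hD0, hD, h26, h46⟩ := co3
  obtain ⟨D₄, hE0, hE', h268⟩ := co4
  refine ⟨D₃, D₄, hD0, hE0, hD, hE', ?_⟩
  intro Ω _ μ _ T E hT hTt hTs hE
  filter_upwards [as_H hT hTt hTs hE] with ω hω δ η hδ hη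
  filter_upwards [hω {0, 2, 6} _ h26 δ η hδ hη, hω {0, 2, 6, 8} _ h268 δ η hδ hη,
    eventually_ge_atTop 1] with x g1 g2 hx1 h h1 h2
  have hx0 : (0 : ℝ) < x := by exact_mod_cast hx1
  have hh : (0 : ℝ) < h := lt_of_lt_of_le (Real.rpow_pos_of_pos hx0 η) h1
  have c26 : ({0, 2, 6} : Finset ℕ).card = 3 := by decide
  have c268 : ({0, 2, 6, 8} : Finset ℕ).card = 4 := by decide
  have g3 := g1 h h1 h2
  have g4 := g2 h h1 h2
  unfold num at g3 g4
  rw [c26] at g3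
  rw [c268] at g4
  simp only [Finset.mem_insert, Finset.mem_singleton, forall_eq_or_imp, forall_eq, add_zero] at g3 g4
  exact ⟨quot hh g3, quot hh g4⟩

end Pool.Agent.Results.MP_3efbeb_nt.AllWindowsInRandomModels
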