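import Mathlib
import Pool.Agent.U288.RO.N2

/-!
# Constellations of consecutive primes in the images of sparse patterns under arbitrary injective maps

Fix `k`, `L`, `q`. For all large `X` and for ANY `L` injective maps `φ_1, ..., φ_L` from `{0, ..., X}` to the integers
(polynomials of any degree, exponential functions, arbitrary enumerations, ...) the following holds for a positive
proportion of the vectors `0 < h_1 < ... < h_k ≤ X` for which all `h_j` and all `h_j - h_i` are shifted primes: for ALL
`j ≤ L`, ALL nonempty `T ⊆ {h_1, ..., h_k}` and ALL `r` coprime to `q` there are infinitely many integers `N` such that the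
numbers `N + φ_j(t)`, `t ∈ T`, are consecutive primes, all of them `≡ r (mod q)`. The proportion does not depend on the
maps.

Proof. By the Maynard-Tao theorem for consecutive primes (starting files: `Pool.Agent.H362R2.CM.quarter`,
`Pool.Agent.H732R3.HausQ.exact_Q`) every set of `K₁` integers, congruent to each other modulo `M = K₁! q`, contains
patterns of `s` consecutive primes of every class `r`, for every `s ≤ k` (`Nx.base_A`). Let `s_0` be the least element of a
set of `K` integers up to `X`. By the pigeonhole principle there are many elements `s` with the same residues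
`φ_j(s - s_0)` modulo `M`, `j ≤ L`. Colour the finite sets `T` of these differences `s - s_0` by the list of the pairs
`(r, j)` for which `φ_j(T)` is a pattern of consecutive primes in the class `r`. By Ramsey's theorem, for all the sizes
`≤ k`, there are `K₁` of the differences such that the colour of `T` depends only on its size; as `φ_j` maps them to `K₁`
different integers congruent modulo `M`, all the subsets with at most `k` elements have the property for all `(r, j)`
(`Nx.hered`). So every set of `K` integers up to `X` contains `k + 1` elements the pattern of which has the property; a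
family of patterns with this property contains a positive proportion of the patterns made of shifted primes
(`Pool.Agent.U288.SP.principle`: counts of the configurations of `K` points and of pairs of them, and the inequality of
Cauchy and Schwarz).
-/

set_option autoImplicit false

namespace Pool.Agent.Results.MP_3efbeb_nt.ImagesUnderAnyMaps

open Filter Finset

open Classical in
/-- the vectors `0 = h 0 < h 1 < ... < h k ≤ X`; if `σ ≠ 0`, those with `h j - h i + σ` prime for all `0 ≤ i < j ≤ k` -/
noncomputable def patterns (k : ℕ) (σ : ℤ) (X : ℕ) : Finset (Fin (k + 1) → ℕ) :=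
  (Fintype.piFinset (fun _ : Fin (k + 1) => range (X + 1))).filter (fun h => h 0 = 0 ∧ StrictMono h ∧
    ∀ i j, i < j → σ ≠ 0 → ((h j : ℤ) - h i + σ).toNat.Prime)

/-- the number of the conditions -/
def edges (k : ℕ) (σ : ℤ) : ℕ := if σ = 0 then 0 else k * (k + 1) / 2

/-- for infinitely many integers `N` the numbers `N + v`, `v ∈ V`, are consecutive primes, all of them `≡ r (mod q)`:
they are primes, and every prime between two of them is one of them -/
def Consecutive (q r : ℕ) (V : Finset ℤ) : Prop :=
  {N : ℤ | (∀ v ∈ V, (N + v).toNat.Prime ∧ N + v ≡ r [ZMOD q]) ∧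
    ∀ p : ℕ, p.Prime → (∃ v ∈ V, N + v ≤ p) → (∃ v ∈ V, (p : ℤ) ≤ N + v) → ∃ v ∈ V, (p : ℤ) = N + v}.Infinite

/-- the set `{h 1, ..., h k}` -/
def points {k : ℕ} (h : Fin (k + 1) → ℕ) : Finset ℕ := (univ : Finset (Fin k)).image (fun a => h a.succ)

open Classical in
/-- the patterns such that for all `j`, all nonempty `T ⊆ {h 1, ..., h k}` and all `r` coprime to `q` the set `φ_j(T)` is a
pattern of consecutive primes in the class `r` -/
noncomputable def good {L : ℕ} (k : ℕ) (σ : ℤ) (q : ℕ) (φ : Fin L → ℕ → ℤ) (X : ℕ) : Finset (Fin (k + 1) → ℕ) :=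
  (patterns k σ X).filter (fun h => ∀ r : ℕ, r.Coprime q → ∀ j, ∀ T ⊆ points h, T.Nonempty →
    Consecutive q r (T.image (φ j)))

/-- **Consecutive primes in all the images of a positive proportion of the patterns made of shifted primes.** The constants
`c`, `C` and the bound for `X` do not depend on the maps `φ`. -/
theorem result (k L q : ℕ) (hq : 1 ≤ q) (σ : ℤ) (hσ : σ = 0 ∨ σ = 1 ∨ σ = -1) :
    ∃ c C : ℝ, 0 < c ∧ ∃ X₀ : ℕ, ∀ X : ℕ, X₀ ≤ X →
      ((patterns k σ X).card : ℝ) ≤ C * ((X : ℝ) ^ k / Real.log X ^ edges k σ) ∧
      ∀ φ : Fin L → ℕ → ℤ, (∀ j, Set.InjOn (φ j) (Set.Iic X)) →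
        c * ((X : ℝ) ^ k / Real.log X ^ edges k σ) ≤ ((good k σ q φ X).card : ℝ) := by
  classical
  obtain ⟨c, C, hc, h⟩ := Pool.Agent.U288.RO.Nx.fin_images k L q hq σ hσ
  obtain ⟨X₀, h⟩ := eventually_atTop.1 h
  refine ⟨c, C, hc, X₀, fun X hX => ?_⟩
  obtain ⟨h1, h2⟩ := h X hX
  have e : (Pool.Agent.U288.SP.shifts (fun _ _ : Fin (k + 1) => σ) X) = patterns k σ X := by
    unfold Pool.Agent.U288.SP.shifts patterns
    congr!
  rw [e] at h1 h2
  refine ⟨h1, fun φ hφ => (h2 φ hφ).trans (le_of_eq ?_)⟩
  unfold good
  congr!

end Pool.Agent.Results.MP_3efbeb_nt.ImagesUnderAnyMaps
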