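import Mathlib
import Pool.Agent.U98.TZ.E1

set_option autoImplicit false

/-!
# All shapes of tuples of almost primes, with a prime

Call an integer rough at the level `w` if it has no prime factors `p ≤ w`. A tuple of the shape `S` at `n` (`S` a finite
set of shifts with least element `0`) consists of the numbers `n + i`, `i ∈ S`, if these are all rough numbers between its
first and its last element.

* Uniformly in the shape `S` of `k` elements, contained in `[0, L]`, `L` up to any constant times the mean distance of the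
  rough numbers, and in the place `b ∈ S`, the number of the tuples of the shape `S` such that `n + b` is a PRIME and
  that no other number in `[n, n + L]` is rough is asymptotically the expected one.
* The shapes of the successive tuples of `k` consecutive rough numbers of diameter `≤ H` form a sequence of independent
  trials with the Hardy-Littlewood probabilities, and they are independent of the distances between the tuples, which have
  the exponential law; this holds in ALL intervals of length `≥ w ^ K`.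

The shapes `{0, 2, 6}` and `{0, 2, 6, 8}` of the problem are admissible, of diameters `6` and `8`.
-/

namespace Pool.Agent.Results.MP_3efbeb_nt.ShapesWithPrime

open Finset

/-- `n` has no prime factors `p ≤ w` -/
def Rough (w n : ℕ) : Prop := ∀ p : ℕ, p.Prime → p ≤ w → ¬ p ∣ n

/-- the rough numbers between `n` and `n + max S` are exactly the numbers `n + i`, `i ∈ S` -/
def Tuple (w : ℕ) (S : Finset ℕ) (n : ℕ) : Prop := ∀ i ≤ S.sup id, (Rough w (n + i) ↔ i ∈ S)

/-- the shapes: the sets of `k` integers in `[0, H]` which contain `0` -/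
noncomputable def shapes (k H : ℕ) : Finset (Finset ℕ) :=
  (range (H + 1)).powerset.filter (fun S => 0 ∈ S ∧ S.card = k)

/-- the number of the residue classes modulo `p` which contain elements of `S` -/
def nu (S : Finset ℕ) (p : ℕ) : ℕ := (S.image (fun x => x % p)).card

/-- `S` is admissible -/
def Admissible (S : Finset ℕ) : Prop := ∀ p : ℕ, p.Prime → nu S p < p

/-- the density of the shape `S` -/
noncomputable def dens (w : ℕ) (S : Finset ℕ) : ℝ := ∏ p ∈ (Icc 1 w).filter Nat.Prime, (1 - (nu S p : ℝ) / p)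

/-- the product of `1 - 1 / p` over the primes `p ≤ w` -/
noncomputable def mertens (w : ℕ) : ℝ := ∏ p ∈ (Icc 1 w).filter Nat.Prime, (1 - 1 / (p : ℝ))

/-- the weight of the shape `S` -/
noncomputable def weight (H : ℕ) (S : Finset ℕ) : ℝ := ∏ p ∈ (Icc 1 H).filter Nat.Prime, ((p : ℝ) - nu S p)

/-- the sum of the weights of all shapes -/
noncomputable def total (k H : ℕ) : ℝ := ∑ S ∈ shapes k H, weight H S

/-- the density of the tuples of diameter at most `H` -/
noncomputable def density (w k H : ℕ) : ℝ :=
  total k H * ∏ p ∈ (Icc 1 w).filter Nat.Prime, (if p ≤ H then 1 / (p : ℝ) else 1 - (k : ℝ) / (p : ℝ))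

/-- the place of the next tuple -/
noncomputable def next (w k H n : ℕ) : ℕ := sInf {m | n < m ∧ ∃ S ∈ shapes k H, Tuple w S m}

/-- The number of the tuples at `n ∈ (Z, Z + Y]` such that this and the next `l` tuples have the shapes `S 0, ..., S l` and
the `l` distances between them are in `(s j, T j]`. -/
noncomputable def tupleCount (w k H l : ℕ) (S : ℕ → Finset ℕ) (s T : ℕ → ℕ) (Z Y : ℕ) : ℕ :=
  Set.ncard {n : ℕ | Z < n ∧ n ≤ Z + Y ∧ (∀ j ≤ l, Tuple w (S j) ((next w k H)^[j] n)) ∧
    ∀ j < l, s j < (next w k H)^[j + 1] n - (next w k H)^[j] n ∧ (next w k H)^[j + 1] n - (next w k H)^[j] n ≤ T j}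

/-- The number of the `n ∈ (u, u + Y]` such that the rough numbers in `[n, n + L]` are the `n + i`, `i ∈ S`, and `n + b` is
prime. -/
noncomputable def primeCount (w : ℕ) (S : Finset ℕ) (b L u Y : ℕ) : ℕ :=
  Set.ncard {n : ℕ | u < n ∧ n ≤ u + Y ∧ (∀ i ≤ L, (Rough w (n + i) ↔ i ∈ S)) ∧ (n + b).Prime}

open Pool.Agent.U98.TZ Pool.Agent.U98.TY Pool.Agent.H373R2.T7 Pool.Agent.W123.RP

lemma mem_shapes (k H : ℕ) (S : Finset ℕ) : S ∈ shapes k H ↔ S ⊆ range (H + 1) ∧ 0 ∈ S ∧ S.card = k := by
  unfold shapes
  rw [mem_filter, mem_powerset]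

lemma nu_le (S : Finset ℕ) (p : ℕ) (hp : 0 < p) : nu S p ≤ p := by
  unfold nu
  have : S.image (fun x => x % p) ⊆ range p := by
    intro x hx
    rw [mem_image] at hx
    obtain ⟨y, _, rfl⟩ := hx
    exact mem_range.2 (Nat.mod_lt _ hp)
  have := card_le_card this
  rwa [card_range] at this

lemma dS_shape (w k H : ℕ) (S : Finset ℕ) (hS : S ∈ shapes k H) (hw : H ≤ w) : dS w S = weight H S *
    ∏ p ∈ (Icc 1 w).filter Nat.Prime, (if p ≤ H then 1 / (p : ℝ) else 1 - (k : ℝ) / (p : ℝ)) := by
  rw [mem_shapes] at hS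
  unfold dS weight
  have h4 : ∏ p ∈ (Icc 1 H).filter Nat.Prime, ((p : ℝ) - nu S p) =
      ∏ p ∈ (Icc 1 w).filter Nat.Prime, (if p ≤ H then ((p : ℝ) - nu S p) else 1) := by
    rw [← Finset.prod_filter]
    apply prod_congr _ (fun _ _ => rfl)
    ext p
    rw [mem_filter, mem_filter, mem_filter, mem_Icc, mem_Icc]
    constructor
    · rintro ⟨⟨a1, a2⟩, a3⟩
      exact ⟨⟨⟨a1, a2.trans hw⟩, a3⟩, a2⟩
    · rintro ⟨⟨⟨a1, _⟩, a3⟩, a2⟩
      exact ⟨⟨a1, a2⟩, a3⟩
  rw [h4, ← Finset.prod_mul_distrib]
  apply prod_congr rfl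
  intro p hp
  rw [mem_filter] at hp
  have hp0 : (0 : ℝ) < p := by exact_mod_cast hp.2.pos
  split_ifs with h5
  · show 1 - (nu S p : ℝ) / p = _
    field_simp
  · have h6 : nuS S p = k := by
      rw [nuS_large S H p (fun i hi => by
        have := mem_range.1 (hS.1 hi)
        omega) (by omega), hS.2.2]
    rw [h6, one_mul]

/-- a test for admissibility -/
lemma adm_of (S : Finset ℕ) (h : ∀ p < S.card + 1, p.Prime → nu S p < p) : Admissible S := by
  intro p hp
  by_cases h1 : p < S.card + 1
  · exact h p h1 hp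
  · have h2 : nu S p ≤ S.card := card_image_le
    omega

/-- **All shapes of tuples of almost primes, with a prime.** -/
theorem result (k : ℕ) (hk : 1 ≤ k) :
    -- rough numbers are almost primes; the shapes of the problem are admissible
    (∀ w n s : ℕ, 0 < n → n ≤ w ^ s → Rough w n → n.primeFactorsList.length ≤ s) ∧
    Admissible {0, 2, 6} ∧ Admissible {0, 2, 6, 8} ∧
    -- tuples with a prime at a prescribed place, uniformly in the shape
    (∀ x₀ ε δ : ℝ, 0 < ε → 0 < δ → δ ≤ 1 → ∃ r w₀ : ℕ, ∀ w : ℕ, w₀ ≤ w → ∀ X : ℕ, w ^ r ≤ X →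
      ∀ L : ℕ, L * mertens w ≤ x₀ → ∀ S : Finset ℕ, S.card = k → 0 ∈ S → (∀ i ∈ S, i ≤ L) → ∀ b ∈ S,
      ∀ u Y : ℕ, δ * X ≤ u → δ * X ≤ Y → u + Y ≤ X →
        |(primeCount w S b L u Y : ℝ) * Real.log X -
            Y * (dens w S / mertens w) * Real.exp (-(L * mertens w))| ≤
          ε * (Y * (dens w S / mertens w) * Real.exp (-(L * mertens w)))) ∧
    -- the law of the shapes of successive tuples
    (∀ H : ℕ, (∃ S ∈ shapes k H, Admissible S) → 0 < total k H ∧
      ∀ l : ℕ, ∀ ε : ℝ, 0 < ε → ∃ K w₀ : ℕ, ∀ w : ℕ, w₀ ≤ w → ∀ Z Y : ℕ, w ^ K ≤ Y →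
      ∀ (S : ℕ → Finset ℕ) (s T : ℕ → ℕ), (∀ j ≤ l, S j ∈ shapes k H) → (∀ j < l, s j ≤ T j) →
        |(tupleCount w k H l S s T Z Y : ℝ) -
          density w k H * Y * (∏ j ∈ range (l + 1), weight H (S j) / total k H) *
            ∏ j ∈ range l, (Real.exp (-(density w k H * s j)) - Real.exp (-(density w k H * T j)))| ≤
          ε * (density w k H * Y)) := by
  classical
  refine ⟨fun w n s hn hns hR => few w s n hn hns hR, ?_, ?_, ?_, ?_⟩
  · apply adm_of
    have : ({0, 2, 6} : Finset ℕ).card = 3 := by decide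
    rw [this]
    intro p hp hpp
    interval_cases p
    · exact absurd hpp (by norm_num)
    · exact absurd hpp (by norm_num)
    · decide
    · decide
  · apply adm_of
    have : ({0, 2, 6, 8} : Finset ℕ).card = 4 := by decide
    rw [this]
    intro p hp hpp
    interval_cases p
    · exact absurd hpp (by norm_num)
    · exact absurd hpp (by norm_num)
    · decide
    · decide
    · exact absurd hpp (by norm_num)
  · intro x₀ ε δ hε hδ hδ1
    obtain ⟨r, w0, hmain⟩ := prime_block k hk x₀ ε δ hε hδ hδ1
    refine ⟨r, w0, ?_⟩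
    intro w hw X hX L hL S hS h0 hSL b hb u Y hu hY huY
    exact hmain w hw X hX S hS h0 b hb L (fun i hi => mem_range.2 (Nat.lt_succ_of_le (hSL i hi))) hL u Y hu hY huY
  · rintro H ⟨S0, hS0, hadm⟩
    have hw0 : ∀ S, 0 ≤ weight H S := by
      intro S
      unfold weight
      apply prod_nonneg
      intro p hp
      rw [mem_filter] at hp
      have := nu_le S p hp.2.pos
      have h1 : (nu S p : ℝ) ≤ p := by exact_mod_cast this
      linarith
    have hwp : 0 < weight H S0 := by
      unfold weight
      apply prod_pos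
      intro p hp
      rw [mem_filter] at hp
      have := hadm p hp.2
      have h1 : (nu S0 p : ℝ) < p := by exact_mod_cast this
      linarith
    have htot : 0 < total k H := Finset.sum_pos' (fun S _ => hw0 S) ⟨S0, hS0, hwp⟩
    refine ⟨htot, ?_⟩
    intro l ε hε
    obtain ⟨K, w₀, hlaw⟩ := law_family k l (shapes k H) (by
      intro S hS
      have := (mem_shapes k H S).1 hS
      exact ⟨this.2.2, this.2.1⟩)
      ⟨S0, hS0, hadm⟩ ε hε
    refine ⟨K, max w₀ (max H 2), ?_⟩
    intro w hw Z Y hY S s T hS hsT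
    have b1 : w₀ ≤ w := (le_max_left _ _).trans hw
    have b2 : H ≤ w := ((le_max_left _ _).trans (le_max_right _ _)).trans hw
    obtain ⟨c, hc⟩ : ∃ c : ℝ, c = ∏ p ∈ (Icc 1 w).filter Nat.Prime,
      (if p ≤ H then 1 / (p : ℝ) else 1 - (k : ℝ) / (p : ℝ)) := ⟨_, rfl⟩
    have hc0 : 0 < c := by
      have h1 := dS_shape w k H S0 hS0 b2
      have h2 : 0 < dS w S0 := by
        unfold dS
        apply prod_pos
        intro p hp
        rw [mem_filter] at hp
        have hp1 : (0 : ℝ) < p := by exact_mod_cast hp.2.pos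
        rw [sub_pos, div_lt_one hp1]
        exact_mod_cast hadm p hp.2
      rw [h1, ← hc] at h2
      exact (mul_pos_iff_of_pos_left hwp).1 h2
    have hD : density w k H = ∑ S ∈ shapes k H, dS w S := by
      unfold density total
      rw [← hc, Finset.sum_mul]
      apply Finset.sum_congr rfl
      intro S hS
      rw [dS_shape w k H S hS b2, ← hc]
    have hmain := hlaw w b1 Z Y hY S s T hS hsT (density w k H) hD
    have hprod : ∏ j ∈ range (l + 1), dS w (S j) / density w k H =
        ∏ j ∈ range (l + 1), weight H (S j) / total k H := by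
      apply prod_congr rfl
      intro j hj
      rw [mem_range] at hj
      rw [dS_shape w k H (S j) (hS j (by omega)) b2]
      unfold density
      rw [← hc]
      field_simp
    rw [hprod] at hmain
    exact hmain

end Pool.Agent.Results.MP_3efbeb_nt.ShapesWithPrime
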