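import Pool.Agent.U455.TUP

set_option autoImplicit false

/-!
# Every large multiple of 12 is a sum of three differences of prime triples, quadruples, ...

Call an even number `2 b d` extendable (to `k + 2` primes) if for some `k` further shifts `2 b t_i` the numbers `n`,
`n + 2 b d`, `n + 2 b t_1`, ..., `n + 2 b t_k` are all prime infinitely often, even along narrow arithmetic progressions of
every length. For all `k` and `b` every large multiple of `12 b` is a sum of three extendable numbers, two of them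
bounded, and every multiple of `12 b` is `d₁ + d₂ - d₃` with extendable numbers larger than any given bound.

`k = 1` concerns prime triples, `k = 2` prime quadruples.

Proof: `k + 2` of any `4 (k + 1)` classes of linear forms are hit by primes, with all patterns along narrow progressions
(`Pool.Agent.Y827.HN.patR`, starting files). So any four admissible classes of shifts contain two shifts of different
classes with an extendable difference (`Pool.Agent.U455.TUP.c4`), and the theorem on such sets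
(`Pool.Agent.U455.TJ.all`), with classes built from extendable numbers, `A₁`, `A₂`, `x - A₂`, `x - A₁`.
-/

namespace Pool.Agent.Results.MP_3efbeb_nt.ThreeDifferences

open Finset Filter

open Classical in
/-- the number of the `1 ≤ m ≤ 2 x` such that for all `j < l`, with `n = m + j D`, the numbers `n`, `n + 2 b d` and all
`n + 2 b t_i` are (positive) primes and all primes `q` at distance at most `R` from `n` are congruent to `n` modulo
`2 b` -/
noncomputable def progressions {k : ℕ} (b d : ℕ) (t : Fin k → ℤ) (l D R x : ℕ) : ℕ :=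
  ((Icc 1 (2 * x)).filter (fun m : ℕ => ∀ j < l, (m + j * D).Prime ∧ (m + j * D + 2 * b * d).Prime ∧
    (∀ i, (((m + j * D : ℕ) : ℤ) + 2 * b * t i).toNat.Prime) ∧
    ∀ q : ℕ, q.Prime → |(q : ℤ) - ((m + j * D : ℕ) : ℤ)| ≤ R →
      ((2 * b : ℕ) : ℤ) ∣ (q : ℤ) - ((m + j * D : ℕ) : ℤ))).card

/-- for all `l` and `R` there is `C` such that for arbitrarily large `x` there is `1 ≤ D ≤ (log x) ^ C` with at
least `x / (log x) ^ C` progressions of length `l` and difference `D` below -/
def Good {k : ℕ} (b d : ℕ) (t : Fin k → ℤ) : Prop := ∀ l R : ℕ, ∃ C : ℕ, ∃ᶠ x : ℕ in atTop,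
    ∃ D : ℕ, 1 ≤ D ∧ (D : ℝ) ≤ Real.log x ^ C ∧ (x : ℝ) / Real.log x ^ C ≤ (progressions b d t l D R x : ℝ)

/-- `2 b d` is extendable to `k + 2` primes -/
def Extendable (k b d : ℕ) : Prop :=
  ∃ t : Fin k → ℤ, Function.Injective t ∧ (∀ i, t i ≠ 0 ∧ t i ≠ d) ∧ Good b d t

theorem result (k b : ℕ) (hb : 1 ≤ b) :
    (∀ R : ℕ, ∃ B L : ℕ, ∀ x : ℕ, L ≤ x → 6 ∣ x → ∃ d₁ d₂ d₃,
      Extendable k b d₁ ∧ Extendable k b d₂ ∧ Extendable k b d₃ ∧
      (R < d₁ ∧ d₁ ≤ B) ∧ (R < d₂ ∧ d₂ ≤ B) ∧ R < d₃ ∧ x = d₁ + d₂ + d₃) ∧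
    ∀ x : ℕ, 6 ∣ x → ∀ R : ℕ, ∃ d₁ d₂ d₃,
      Extendable k b d₁ ∧ Extendable k b d₂ ∧ Extendable k b d₃ ∧
      R < d₁ ∧ R < d₂ ∧ R < d₃ ∧ x + d₃ = d₁ + d₂ :=
  Pool.Agent.U455.TUP.three k b hb

end Pool.Agent.Results.MP_3efbeb_nt.ThreeDifferences
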